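import Pool.Agent.Lib.MP_0dd0d9_ag.Hi.Core

/-!
Gonality of the moduli spaces of degree `d` endomorphisms of projective `N`-space with a marked
point of exact period `n`.

`Yn` is the cone over the variety of pairs `(f, P)`: a point is a tuple `F` of `N + 1` forms of
degree `d` without nontrivial common zero and a nonzero vector `p` whose line has exact period `n`.
The moduli space is the quotient of `Yn` by the connected group `GL × ℂˣ × ℂˣ`.  So its irreducible
components correspond to the minimal primes `𝔭` of the vanishing ideal of `Yn`.  The function
field of the component of `Yn` is a field `K` generated by a generic point `u` (the polynomials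
vanishing at `u` are those of `𝔭`), and the function field of the component of the moduli space is
the field `inv u` of invariants.  A dominant rational map from a component to the projective space
of the same dimension is given by a transcendence basis `t` of `inv u`, and its degree is the
degree of `inv u` over `ℂ(t)`.
-/

open Pool.Agent.Lib.MP_0dd0d9_ag.Hi in
theorem Pool.Agent.Results.MP_0dd0d9_ag.Gonality.result (N : ℕ) (hN : 1 ≤ N) (d : ℕ) (hd : 2 ≤ d)
    (B : ℕ) :
    ∃ n0 : ℕ, ∀ n, n0 ≤ n →
      ∀ 𝔭 ∈ (MvPolynomial.vanishingIdeal ℂ (Yn (Fin (N + 1)) d n)).minimalPrimes,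
        ∀ (K : Type) [Field K] [Algebra ℂ K]
          (u : (Fin (N + 1) × Mn (Fin (N + 1)) d) ⊕ Fin (N + 1) → K),
          (∀ q, MvPolynomial.aeval u q = 0 ↔ q ∈ 𝔭) →
          IntermediateField.adjoin ℂ (Set.range u) = ⊤ → GonGt B (inv u) :=
  main N hN d hd B
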