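import Pool.Agent.Lib.MP_0dd0d9_ag.Lin.Red

/-!
The gonality of the moduli space of degree `d` rational maps of the projective line with a marked
point of exact period `n` grows at least linearly in `n`.

For `n ≥ 3` the points `P`, `f P`, `f (f P)` are distinct, so every pair `(f, P)` is conjugate to
exactly one pair with `P = 0`, `f 0 = 1`, `f 1 = ∞`.  These pairs are parametrised by the locally
closed set `Xn d n` of affine space of dimension `2 d - 1`.  Its irreducible components are given
by the minimal primes of its vanishing ideal.  A dominant rational map from a component to the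
projective space of the same dimension is given by a transcendence basis `t` of the function
field of the component, and its degree is the degree of the function field over `ℂ(t)`.
-/

open Pool.Agent.Lib.MP_0dd0d9_ag in
theorem Pool.Agent.Results.MP_0dd0d9_ag.LinearRate.result (d : ℕ) (hd : 2 ≤ d) :
    ∃ c : ℝ, 0 < c ∧ ∃ n0 : ℕ, ∀ n, n0 ≤ n →
      ∀ (𝔭 : Ideal (MvPolynomial (Fin d ⊕ Fin (d - 1)) ℂ)) [𝔭.IsPrime],
        𝔭 ∈ (MvPolynomial.vanishingIdeal ℂ (Xn d n)).minimalPrimes →
        ∀ {ι : Type} (t : ι → FractionRing (MvPolynomial (Fin d ⊕ Fin (d - 1)) ℂ ⧸ 𝔭)),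
          IsTranscendenceBasis ℂ t →
          c * n ≤ Module.finrank (IntermediateField.adjoin ℂ (Set.range t))
            (FractionRing (MvPolynomial (Fin d ⊕ Fin (d - 1)) ℂ ⧸ 𝔭)) :=
  linmain d hd
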